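import Pool.Agent.Helper65_FreyD.Red
import Pool.Agent.Helper79_FreyD.Final

/-!
# The exceptional set among all separable polynomials
-/

namespace Pool.Agent.Helper65FreyD

open NumberField Module Polynomial Pool.Agent.Helper79FreyD
open scoped ComplexOrder

/-- The polynomial `f` has no multiple root, the integrals in the Gram matrices converge
(absolutely), the Gram matrices are positive definite, and the height is at most `κ` times the
logarithm of the `(m - 1)`-st power of the product of the absolute discriminants of the number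
fields `ℚ[x] / (p)`, `p` the irreducible factors of `f`, plus `C`. -/
def FreyHoldsSep (m : ℕ) (κ C : ℝ) (f : ℤ[X]) : Prop :=
  (toQ f).Separable ∧
    (∀ j ∈ Finset.Ico 1 m, (∀ p q : Fin (num m f.natDegree j),
      MeasureTheory.Integrable (ker m f j p q)) ∧ (gram m f j).PosDef) ∧
    hW m f ≤ κ * Real.log ((prodDisc (toQ f) : ℝ) ^ (m - 1)) + C

/-- The rational numbers. -/
theorem genSet_one : GenSet 1 0 := by
  refine ⟨1, one_pos, fun N _ => ⟨{X}, ?_, ?_, ?_⟩⟩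
  · intro P hP
    rw [Finset.mem_singleton] at hP
    rw [hP]
    exact ⟨monic_X, natDegree_X⟩
  · simp
  · intro K _ _ hK _
    refine ⟨0, ?_, ?_⟩
    · have h1 : (⊤ : IntermediateField ℚ K) = ⊥ :=
        IntermediateField.finrank_eq_one_iff.mp (by
          rw [IntermediateField.finrank_top', hK])
      rw [h1, eq_bot_iff, IntermediateField.adjoin_simple_le_iff]
      exact zero_mem _
    · rw [Finset.mem_singleton]
      have h0 : ((0 : 𝓞 K) : K) = 0 := rfl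
      rw [h0]
      apply Polynomial.map_injective (algebraMap ℤ ℚ) (algebraMap ℤ ℚ).injective_int
      rw [← minpoly.isIntegrallyClosed_eq_field_fractions' ℚ isIntegral_zero, minpoly.zero,
        Polynomial.map_X]

/-- An exponent for the fields of degree less than `n`. -/
noncomputable def allExp (n : ℕ) : ℝ :=
  min ((n : ℝ) / 2 - 1 / n) ((Nat.clog 2 n : ℝ) * (2 * Nat.clog 2 n + 1))

lemma E₁_le (n : ℕ) (hn : 2 ≤ n) : E₁ n ≤ (n : ℝ) / 2 + 1 / 2 - 1 / n := by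
  have hn' : (2 : ℝ) ≤ n := by exact_mod_cast hn
  rw [E₁_eq]
  have hq : (0 : ℝ) < n.minFac := by exact_mod_cast Nat.minFac_pos n
  have hq2 : (2 : ℝ) ≤ n.minFac := by
    exact_mod_cast (Nat.minFac_prime (by omega)).two_le
  have h1 : (n : ℝ) / n.minFac ≤ n / 2 := by gcongr
  have h2 : (n : ℝ) / 2 + 1 / 2 - 1 / n = ((n : ℝ) + 2) * (n - 1) / (4 * (n / 2)) := by
    field_simp
    ring
  rw [h2]
  have h3 : (0 : ℝ) ≤ ((n : ℝ) + 2) * (n - 1) := by nlinarith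
  apply div_le_div_of_nonneg_left h3 (by linarith)
  linarith

lemma allExp_nonneg (n : ℕ) (hn : 2 ≤ n) : 0 ≤ allExp n := by
  have hn' : (2 : ℝ) ≤ n := by exact_mod_cast hn
  unfold allExp
  rw [le_min_iff]
  refine ⟨?_, by positivity⟩
  have : (1 : ℝ) / n ≤ 1 := by
    rw [div_le_one (by linarith)]
    linarith
  linarith

lemma fieldExp_le (n : ℕ) (hn : 2 ≤ n) : fieldExp n ≤ allExp n + 1 / 2 := by
  unfold fieldExp allExp
  rw [← E₁_eq, ← min_add_add_right]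
  refine min_le_min ?_ (by linarith)
  have := E₁_le n hn
  linarith

theorem genSet_allExp (hthx : THX.GstStmt) (n : ℕ) (hn : 2 ≤ n) (E : ℝ) (hE : allExp n < E)
    (k : ℕ) (hk : 1 ≤ k) (hkn : k < n) : GenSet k E := by
  have hn' : (2 : ℝ) ≤ n := by exact_mod_cast hn
  have hE0 := allExp_nonneg n hn
  by_cases hk1 : k = 1
  · rw [hk1]
    exact genSet_one.mono (by linarith)
  unfold allExp at hE
  rw [min_lt_iff] at hE
  rcases hE with h | h
  · refine (genSet_E₁ k (by omega)).mono ((E₁_le k (by omega)).trans ?_)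
    have hk2 : (2 : ℝ) ≤ k := by exact_mod_cast (by omega : 2 ≤ k)
    have hkn' : (k : ℝ) + 1 ≤ n := by exact_mod_cast hkn
    have h3 : (1 : ℝ) / n ≤ 1 / k := by
      apply one_div_le_one_div_of_le (by linarith)
      linarith
    linarith
  · have h1 := hthx k (Nat.clog 2 n) (by omega)
      (Nat.clog_pos (by norm_num) (by omega)) (hkn.le.trans (Nat.le_pow_clog (by norm_num) n))
      (E - (Nat.clog 2 n : ℝ) * (2 * Nat.clog 2 n + 1)) (by linarith)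
    rw [add_sub_cancel] at h1
    exact genSet_of_thx h1

/-- The exceptional set among all separable polynomials. -/
def excSep (m n : ℕ) (κ C₀ : ℝ) (H : ℕ) : Set (Fin (n - 1) → ℤ) :=
  {a | (∀ i, |a i| ≤ (H : ℤ) ^ (n - (i : ℕ))) ∧ (toQ (mpoly n a)).Separable ∧
    ¬ FreyHoldsSep m κ C₀ (mpoly n a)}

lemma toC_separable' (f : ℤ[X]) (hf : (toQ f).Separable) : (toC f).Separable := by
  have h2 := hf.map (f := algebraMap ℚ ℂ)
  have h3 : (toQ f).map (algebraMap ℚ ℂ) = toC f := by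
    rw [Polynomial.map_map]
    congr 1
  rwa [h3] at h2

/-- In the exceptional set the discriminant is small. -/
theorem excSep_subset (m n : ℕ) (hm : 2 ≤ m) (hn : 2 ≤ n) :
    ∃ C₀ : ℝ, ∀ κ : ℝ, 0 < κ → ∀ H : ℕ, 1 ≤ H → ∀ a ∈ excSep m n κ C₀ H,
      mpoly n a ∈ M n (2 * H) 0 ((H : ℝ) ^ (sig m n / (κ * ((m : ℝ) - 1)))) := by
  obtain ⟨C₀, hC₀⟩ := height_mpoly m n (by omega) hn
  refine ⟨C₀, fun κ hκ H hH => ?_⟩
  have hH1 : (1 : ℝ) ≤ H := by exact_mod_cast hH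
  have hH0 : (0 : ℝ) < H := by linarith
  have hm1 : (0 : ℝ) < (m : ℝ) - 1 := by
    have : (2 : ℝ) ≤ m := by exact_mod_cast hm
    linarith
  set t : ℝ := sig m n / (κ * ((m : ℝ) - 1)) with ht
  rintro a ⟨ha, hsep, hnot⟩
  have ha' : ∀ i, |(a i : ℝ)| ≤ (H : ℝ) ^ (n - (i : ℕ)) := by
    intro i
    exact_mod_cast ha i
  refine ⟨monic_mpoly n hn a, natDegree_mpoly n hn a,
    fun z hz => root_le n hn a H hH0 ha' z hz, nextCoeff_mpoly n hn a, ?_⟩
  obtain ⟨h1, h2⟩ := hC₀ a (toC_separable' _ hsep)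
  have h3 := h2 H hH1 ha'
  by_contra hcon
  rw [not_le] at hcon
  apply hnot
  refine ⟨hsep, h1, h3.trans (add_le_add_left ?_ _)⟩
  have h4 : t * Real.log H ≤ Real.log (prodDisc (toQ (mpoly n a))) := by
    rw [← Real.log_rpow hH0]
    exact Real.log_le_log (by positivity) hcon.le
  have h5 : sig m n = κ * ((m : ℝ) - 1) * t := by
    rw [ht]
    field_simp
  rw [Real.log_pow, Nat.cast_sub (by omega), Nat.cast_one, h5]
  calc κ * ((m : ℝ) - 1) * t * Real.log H = κ * ((m : ℝ) - 1) * (t * Real.log H) := by ring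
    _ ≤ κ * ((m : ℝ) - 1) * Real.log (prodDisc (toQ (mpoly n a))) := by gcongr
    _ = _ := by ring

/-- The exceptional set among the reducible polynomials. -/
theorem excRed_card (m n : ℕ) (hm : 2 ≤ m) (hn : 2 ≤ n) :
    ∃ C₀ : ℝ, ∀ κ : ℝ, 0 < κ → ∀ E ε : ℝ, 0 ≤ E → 0 < ε →
      (∀ k, 1 ≤ k → k < n → GenSet k E) → ∃ C : ℝ, ∀ H : ℕ, 1 ≤ H →
      {a | a ∈ excSep m n κ C₀ H ∧ ¬ Irreducible (toQ (mpoly n a))}.Finite ∧
      ({a | a ∈ excSep m n κ C₀ H ∧ ¬ Irreducible (toQ (mpoly n a))}.ncard : ℝ) ≤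
        C * (H : ℝ) ^ ((n : ℝ) - 1 + (E + ε) * (sig m n / (κ * ((m : ℝ) - 1)))) := by
  obtain ⟨C₀, hC₀⟩ := excSep_subset m n hm hn
  refine ⟨C₀, fun κ hκ E ε hE hε hG => ?_⟩
  obtain ⟨C, hC, hP⟩ := pr_all n E ε hE hε hG
  refine ⟨C * 2 ^ (n - 1), fun H hH => ?_⟩
  have hH1 : (1 : ℝ) ≤ H := by exact_mod_cast hH
  have hH0 : (0 : ℝ) < H := by linarith
  have hm1 : (0 : ℝ) < (m : ℝ) - 1 := by
    have : (2 : ℝ) ≤ m := by exact_mod_cast hm
    linarith
  have hsub := hC₀ κ hκ H hH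
  set t : ℝ := sig m n / (κ * ((m : ℝ) - 1)) with ht
  have ht0 : 0 ≤ t := div_nonneg (sig_nonneg hm) (by positivity)
  have hN : 1 ≤ (H : ℝ) ^ t := Real.one_le_rpow hH1 ht0
  obtain ⟨hfin, hcard⟩ := hP (2 * H) ((H : ℝ) ^ t) (by linarith) hN 0
  have hinj : Set.InjOn (mpoly n) {a | a ∈ excSep m n κ C₀ H ∧ ¬ Irreducible (toQ (mpoly n a))} := by
    intro a _ b _ hab
    funext i
    rw [← coeff_mpoly n a i, ← coeff_mpoly n b i, hab]
  have hmaps : Set.MapsTo (mpoly n)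
      {a | a ∈ excSep m n κ C₀ H ∧ ¬ Irreducible (toQ (mpoly n a))}
      {f | f ∈ M n (2 * H) 0 ((H : ℝ) ^ t) ∧ ¬ Irreducible (toQ f)} :=
    fun a ha => ⟨hsub a ha.1, ha.2⟩
  refine ⟨Set.Finite.of_finite_image (hfin.subset hmaps.image_subset) hinj, ?_⟩
  have h1 : ({a | a ∈ excSep m n κ C₀ H ∧ ¬ Irreducible (toQ (mpoly n a))}.ncard : ℝ) ≤
      ({f | f ∈ M n (2 * H) 0 ((H : ℝ) ^ t) ∧ ¬ Irreducible (toQ f)}.ncard : ℝ) := by
    exact_mod_cast Set.ncard_le_ncard_of_injOn _ hmaps hinj hfin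
  refine h1.trans (hcard.trans (le_of_eq ?_))
  rw [mul_pow, ← Real.rpow_mul hH0.le, Real.rpow_add hH0]
  have h2 : (H : ℝ) ^ ((n : ℝ) - 1) = (H : ℝ) ^ (n - 1) := by
    rw [← Real.rpow_natCast, Nat.cast_sub (by omega), Nat.cast_one]
  rw [h2, mul_comm t]
  ring

/-- The exceptional set among all separable polynomials is small. -/
theorem final_sep (hthx : THX.GstStmt) (m n : ℕ) (hm : 2 ≤ m) (hn : 3 ≤ n) :
    ∃ C₀ : ℝ, ∀ κ : ℝ, ((n : ℝ) - 1) / 6 ≤ κ →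
      ∀ E : ℝ, allExp n < E → ∃ C : ℝ, ∀ H : ℕ, 1 ≤ H →
        ({a : Fin (n - 1) → ℤ | (∀ i, |a i| ≤ (H : ℤ) ^ (n - (i : ℕ))) ∧
          (toQ (mpoly n a)).Separable ∧ ¬ FreyHoldsSep m κ C₀ (mpoly n a)}.ncard : ℝ) ≤
        C * (H : ℝ) ^ ((n : ℝ) - 1 + E * (sig m n / (κ * (m - 1)))) := by
  have hn' : (3 : ℝ) ≤ n := by exact_mod_cast hn
  have hm' : (2 : ℝ) ≤ m := by exact_mod_cast hm
  obtain ⟨C₁, h1⟩ := final hthx m n hm hn
  obtain ⟨C₂, h2⟩ := excRed_card m n hm (by omega)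
  refine ⟨max C₁ C₂, fun κ hκ E hE => ?_⟩
  have hκ0 : 0 < κ := lt_of_lt_of_le (by linarith) hκ
  have hA := allExp_nonneg n (by omega)
  obtain ⟨D₁, hD₁⟩ := h1 κ hκ (E + 1 / 2) (lt_of_le_of_lt (fieldExp_le n (by omega)) (by linarith))
  obtain ⟨D₂, hD₂⟩ := h2 κ hκ0 ((allExp n + E) / 2) ((E - allExp n) / 2) (by linarith)
    (by linarith) (genSet_allExp hthx n (by omega) _ (by linarith))
  refine ⟨D₁ + D₂, fun H hH => ?_⟩
  have e1 := hD₁ H hH
  obtain ⟨f2, e2⟩ := hD₂ H hH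
  rw [add_sub_cancel_right] at e1
  have e3 : (allExp n + E) / 2 + (E - allExp n) / 2 = E := by ring
  rw [e3] at e2
  set S₁ : Set (Fin (n - 1) → ℤ) := {a | (∀ i, |a i| ≤ (H : ℤ) ^ (n - (i : ℕ))) ∧
    Irreducible (toQ (mpoly n a)) ∧ ¬ FreyHolds m κ C₁ (mpoly n a)} with hS₁
  set S₂ : Set (Fin (n - 1) → ℤ) :=
    {a | a ∈ excSep m n κ C₂ H ∧ ¬ Irreducible (toQ (mpoly n a))} with hS₂
  have hfinBox : {a : Fin (n - 1) → ℤ | ∀ i, |a i| ≤ (H : ℤ) ^ (n - (i : ℕ))}.Finite := by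
    have h3 : {a : Fin (n - 1) → ℤ | ∀ i, |a i| ≤ (H : ℤ) ^ (n - (i : ℕ))} ⊆
        Set.pi Set.univ (fun i : Fin (n - 1) =>
          Set.Icc (-(H : ℤ) ^ (n - (i : ℕ))) ((H : ℤ) ^ (n - (i : ℕ)))) := by
      intro a ha i _
      exact abs_le.mp (ha i)
    exact (Set.Finite.pi fun i => Set.finite_Icc _ _).subset h3
  have f1 : S₁.Finite := hfinBox.subset fun a ha => ha.1
  have hsub : {a : Fin (n - 1) → ℤ | (∀ i, |a i| ≤ (H : ℤ) ^ (n - (i : ℕ))) ∧
      (toQ (mpoly n a)).Separable ∧ ¬ FreyHoldsSep m κ (max C₁ C₂) (mpoly n a)} ⊆ S₁ ∪ S₂ := by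
    rintro a ⟨ha, hsep, hnot⟩
    by_cases hi : Irreducible (toQ (mpoly n a))
    · left
      refine ⟨ha, hi, fun hF => hnot ?_⟩
      obtain ⟨hfact, g1, g2⟩ := hF
      refine ⟨hsep, g1, g2.trans ?_⟩
      rw [prodDisc_irr ((monic_mpoly n (by omega) a).map _) hi, dq_toQ]
      have := le_max_left C₁ C₂
      linarith
    · right
      refine ⟨⟨ha, hsep, fun hF => hnot ?_⟩, hi⟩
      obtain ⟨g0, g1, g2⟩ := hF
      refine ⟨g0, g1, g2.trans ?_⟩
      have := le_max_right C₁ C₂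
      linarith
  have h3 : (({a : Fin (n - 1) → ℤ | (∀ i, |a i| ≤ (H : ℤ) ^ (n - (i : ℕ))) ∧
      (toQ (mpoly n a)).Separable ∧
        ¬ FreyHoldsSep m κ (max C₁ C₂) (mpoly n a)}.ncard : ℕ) : ℝ) ≤
      (S₁.ncard : ℝ) + (S₂.ncard : ℝ) := by
    exact_mod_cast (Set.ncard_le_ncard hsub (f1.union f2)).trans (Set.ncard_union_le _ _)
  calc _ ≤ (S₁.ncard : ℝ) + (S₂.ncard : ℝ) := h3
    _ ≤ _ := add_le_add e1 e2
    _ = _ := by ring

end Pool.Agent.Helper65FreyD
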