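import Pool.Agent.Helper79_FreyD.Sharp

/-!
# Monic irreducible polynomials with small roots whose field has a small discriminant
-/

namespace Pool.Agent.Helper65FreyD

open NumberField Module IntermediateField Polynomial Pool.Agent.Helper79FreyD

section small

variable {K : Type} [Field K] [NumberField K]

variable (K) in
/-- The algebraic integers of trace `t` all of whose conjugates have absolute value at most
`R`. -/
def smallt (R : ℝ) (t : ℚ) : Set (𝓞 K) := {x | x ∈ small K R ∧ Algebra.trace ℚ K (x : K) = t}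

lemma smallt_finite (R : ℝ) (t : ℚ) (hR : 0 ≤ R) : (smallt K R t).Finite :=
  (small_finite R hR).subset fun _ h => h.1

lemma smallt_ncard (R : ℝ) (t : ℚ) (hR : 1 ≤ R) :
    ((smallt K R t).ncard : ℝ) ≤ 7 ^ finrank ℚ K * R ^ (finrank ℚ K - 1) := by
  have hR0 : 0 ≤ R := by linarith
  set L : ℕ := ⌈R⌉₊ with hL
  have hL1 : R ≤ L := Nat.le_ceil R
  have hL2 : (L : ℝ) < R + 1 := Nat.ceil_lt_add_one hR0
  have hLR : (L : ℝ) ≤ 2 * R := by linarith
  have hn : 0 < finrank ℚ K := finrank_pos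
  have key : ((smallt K R t) ×ˢ (Finset.Icc 1 L : Set ℕ)).ncard ≤ (small K (R + L)).ncard := by
    refine Set.ncard_le_ncard_of_injOn (fun p : 𝓞 K × ℕ => p.1 + (p.2 : 𝓞 K)) ?_ ?_
      (small_finite _ (by positivity))
    · rintro ⟨x, c⟩ ⟨hx, hc⟩
      intro φ
      rw [Finset.coe_Icc, Set.mem_Icc] at hc
      have h1 : φ (((x + (c : 𝓞 K) : 𝓞 K)) : K) = φ (x : K) + c := by
        simp
      rw [h1]
      refine (norm_add_le _ _).trans ?_
      rw [Complex.norm_natCast]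
      have : (c : ℝ) ≤ L := by exact_mod_cast hc.2
      linarith [hx.1 φ]
    · rintro ⟨x, c⟩ ⟨hx, hc⟩ ⟨y, d⟩ ⟨hy, hd⟩ hxy
      have h1 : (x : K) + (c : K) = (y : K) + (d : K) := by
        have := congrArg (fun z : 𝓞 K => (z : K)) hxy
        simpa using this
      have h2 := congrArg (Algebra.trace ℚ K) h1
      have h3 : ∀ e : ℕ, Algebra.trace ℚ K (e : K) = finrank ℚ K * (e : ℚ) := by
        intro e
        have := Algebra.trace_algebraMap (R := ℚ) (S := K) (e : ℚ)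
        rw [map_natCast] at this
        rw [this, nsmul_eq_mul]
      rw [map_add, map_add, hx.2, hy.2, h3, h3] at h2
      have h2' := add_left_cancel h2
      have h4 : ((finrank ℚ K : ℕ) : ℚ) ≠ 0 := by exact_mod_cast hn.ne'
      have h5 : (c : ℚ) = d := mul_left_cancel₀ h4 h2'
      have h6 : c = d := by exact_mod_cast h5
      subst h6
      have h7 : (x : K) = (y : K) := add_right_cancel h1
      rw [RingOfIntegers.ext h7]
  rw [Set.ncard_prod, Set.ncard_coe_finset, Nat.card_Icc, Nat.add_sub_cancel] at key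
  have h1 := small_ncard (K := K) (R + L) (by positivity)
  have h2 : ((smallt K R t).ncard : ℝ) * L ≤ (2 * (R + L) + 1) ^ finrank ℚ K := by
    refine le_trans ?_ h1
    exact_mod_cast key
  have h3 : (2 * (R + L) + 1) ^ finrank ℚ K ≤ (7 * R) ^ finrank ℚ K := by
    gcongr
    linarith
  have h4 : ((smallt K R t).ncard : ℝ) * R ≤ (7 * R) ^ finrank ℚ K :=
    (mul_le_mul_of_nonneg_left hL1 (by positivity)).trans (h2.trans h3)
  have h5 : (7 * R) ^ finrank ℚ K = (7 ^ finrank ℚ K * R ^ (finrank ℚ K - 1)) * R := by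
    rw [mul_pow, mul_assoc, ← pow_succ, Nat.sub_add_cancel hn]
  rw [h5] at h4
  exact le_of_mul_le_mul_right h4 (by linarith)

end small

/-- The complex roots of `f` have absolute value at most `R`. -/
def RB (R : ℝ) (f : ℤ[X]) : Prop := ∀ z : ℂ, eval₂ (Int.castRingHom ℂ) z f = 0 → ‖z‖ ≤ R

/-- The monic polynomials of degree `k`, irreducible over the rationals, with small roots. -/
def Ir (k : ℕ) (R : ℝ) : Set ℤ[X] :=
  {g | g.Monic ∧ g.natDegree = k ∧ RB R g ∧ Irreducible (toQ g)}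

open Classical in
/-- The absolute discriminant of the field `ℚ[x] / (q)`, if `q` is irreducible, and `1`
otherwise. -/
noncomputable def dq (q : ℚ[X]) : ℕ :=
  if h : Irreducible q then
    haveI : Fact (Irreducible q) := ⟨h⟩
    (discr (AdjoinRoot q)).natAbs
  else 1

lemma dq_toQ (f : ℤ[X]) [h : Fact (Irreducible (toQ f))] : dq (toQ f) = absDisc f := by
  unfold dq absDisc
  rw [dif_pos h.out]

lemma one_le_dq (q : ℚ[X]) : 1 ≤ dq q := by
  unfold dq
  split_ifs with h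
  · haveI : Fact (Irreducible q) := ⟨h⟩
    exact Nat.one_le_iff_ne_zero.mpr (Int.natAbs_ne_zero.mpr (discr_ne_zero _))
  · exact le_rfl

/-- The minimal polynomials of the small integers of the field `ℚ[x] / (P)`, with given
second coefficient. -/
def fib (k : ℕ) (R : ℝ) (t : ℤ) (P : ℤ[X]) : Set ℤ[X] :=
  {g | g.natDegree = k ∧ g.nextCoeff = t ∧ ∃ _ : Fact (Irreducible (toQ P)),
    ∃ x ∈ small (AdjoinRoot (toQ P)) R, minpoly ℤ (x : AdjoinRoot (toQ P)) = g}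

/-- The same, without the condition on the second coefficient. -/
def fib' (k : ℕ) (R : ℝ) (P : ℤ[X]) : Set ℤ[X] :=
  {g | g.natDegree = k ∧ ∃ _ : Fact (Irreducible (toQ P)),
    ∃ x ∈ small (AdjoinRoot (toQ P)) R, minpoly ℤ (x : AdjoinRoot (toQ P)) = g}

lemma trace_of_minpoly {K : Type} [Field K] [NumberField K] (x : 𝓞 K) (g : ℤ[X])
    (hg : minpoly ℤ (x : K) = g) (hd : g.natDegree = finrank ℚ K) :
    Algebra.trace ℚ K (x : K) = -((g.nextCoeff : ℤ) : ℚ) := by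
  have hPQ : toQ g = minpoly ℚ (x : K) := by
    rw [← hg, minpoly.isIntegrallyClosed_eq_field_fractions' ℚ x.isIntegral_coe]
    rfl
  have hmon : g.Monic := by
    rw [← hg]
    exact minpoly.monic x.isIntegral_coe
  have h0 : (minpoly ℚ (x : K)).natDegree = finrank ℚ K := by
    rw [← hPQ, hmon.natDegree_map, hd]
  have h2 : ℚ⟮(x : K)⟯ = ⊤ := (Field.primitive_element_iff_minpoly_natDegree_eq ℚ (x : K)).mpr h0
  have h1 := trace_eq_finrank_mul_minpoly_nextCoeff ℚ (x : K)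
  rw [h2, IntermediateField.finrank_top, Nat.cast_one, one_mul, ← hPQ,
    nextCoeff_map (Int.castRingHom ℚ).injective_int, eq_intCast] at h1
  exact h1

lemma fib_card (k : ℕ) (R : ℝ) (t : ℤ) (hR : 1 ≤ R) (P : ℤ[X]) (hmon : P.Monic)
    (hdeg : P.natDegree = k) :
    (fib k R t P).Finite ∧ ((fib k R t P).ncard : ℝ) ≤ 7 ^ k * R ^ (k - 1) := by
  by_cases hP : Irreducible (toQ P)
  · have : Fact (Irreducible (toQ P)) := ⟨hP⟩
    have hfr : finrank ℚ (AdjoinRoot (toQ P)) = k := by rw [finrank_adjoinRoot P hmon, hdeg]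
    have hfin := smallt_finite (K := AdjoinRoot (toQ P)) R (-((t : ℤ) : ℚ)) (by linarith)
    have hsub : fib k R t P ⊆ (fun x : 𝓞 (AdjoinRoot (toQ P)) =>
        minpoly ℤ (x : AdjoinRoot (toQ P))) '' smallt (AdjoinRoot (toQ P)) R (-((t : ℤ) : ℚ)) := by
      rintro g ⟨h1, h2, _, x, hx, h⟩
      refine ⟨x, ⟨hx, ?_⟩, h⟩
      rw [trace_of_minpoly x g h (by rw [hfr, h1]), h2]
    refine ⟨(hfin.image _).subset hsub, ?_⟩
    have h1 := (Set.ncard_le_ncard hsub (hfin.image _)).trans (Set.ncard_image_le hfin)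
    have h2 := smallt_ncard (K := AdjoinRoot (toQ P)) R (-((t : ℤ) : ℚ)) hR
    rw [hfr] at h2
    exact (by exact_mod_cast h1 : ((fib k R t P).ncard : ℝ) ≤ _).trans h2
  · have : fib k R t P = ∅ := by
      ext a
      simp only [Set.mem_empty_iff_false, iff_false]
      rintro ⟨_, _, h, _⟩
      exact hP h.out
    rw [this]
    refine ⟨Set.finite_empty, ?_⟩
    simp only [Set.ncard_empty, Nat.cast_zero]
    positivity

lemma fib'_card (k : ℕ) (R : ℝ) (hR : 1 ≤ R) (P : ℤ[X]) (hmon : P.Monic)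
    (hdeg : P.natDegree = k) :
    (fib' k R P).Finite ∧ ((fib' k R P).ncard : ℝ) ≤ 7 ^ k * R ^ k := by
  by_cases hP : Irreducible (toQ P)
  · have : Fact (Irreducible (toQ P)) := ⟨hP⟩
    have hfr : finrank ℚ (AdjoinRoot (toQ P)) = k := by rw [finrank_adjoinRoot P hmon, hdeg]
    have hfin := small_finite (K := AdjoinRoot (toQ P)) R (by linarith)
    have hsub : fib' k R P ⊆ (fun x : 𝓞 (AdjoinRoot (toQ P)) =>
        minpoly ℤ (x : AdjoinRoot (toQ P))) '' small (AdjoinRoot (toQ P)) R := by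
      rintro g ⟨h1, _, x, hx, h⟩
      exact ⟨x, hx, h⟩
    refine ⟨(hfin.image _).subset hsub, ?_⟩
    have h1 := (Set.ncard_le_ncard hsub (hfin.image _)).trans (Set.ncard_image_le hfin)
    have h2 := small_ncard (K := AdjoinRoot (toQ P)) R (by linarith)
    rw [hfr] at h2
    refine (by exact_mod_cast h1 : ((fib' k R P).ncard : ℝ) ≤ _).trans (h2.trans ?_)
    rw [← mul_pow]
    have : 2 * R + 1 ≤ 7 * R := by linarith
    gcongr
  · have : fib' k R P = ∅ := by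
      ext a
      simp only [Set.mem_empty_iff_false, iff_false]
      rintro ⟨_, h, _⟩
      exact hP h.out
    rw [this]
    refine ⟨Set.finite_empty, ?_⟩
    simp only [Set.ncard_empty, Nat.cast_zero]
    positivity

/-- Every irreducible polynomial is the minimal polynomial of a small integer of the field
generated by a root of the minimal polynomial of a generator. -/
lemma mem_fib' (k : ℕ) (R : ℝ) (f : ℤ[X]) (hmon : f.Monic) (hk : f.natDegree = k) (hR : RB R f)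
    [hf : Fact (Irreducible (toQ f))] (y : 𝓞 (AdjoinRoot (toQ f)))
    (hy : ℚ⟮(y : AdjoinRoot (toQ f))⟯ = ⊤) :
    f ∈ fib' k R (minpoly ℤ (y : AdjoinRoot (toQ f))) := by
  set P := minpoly ℤ (y : AdjoinRoot (toQ f)) with hP
  have hPQ : toQ P = minpoly ℚ (y : AdjoinRoot (toQ f)) := by
    rw [minpoly.isIntegrallyClosed_eq_field_fractions' ℚ y.isIntegral_coe]
    rfl
  have hyint : IsIntegral ℚ (y : AdjoinRoot (toQ f)) := Algebra.IsSeparable.isIntegral ℚ _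
  have hirr : Irreducible (toQ P) := by
    rw [hPQ]
    exact minpoly.irreducible hyint
  have : Fact (Irreducible (toQ P)) := ⟨hirr⟩
  -- the isomorphism
  let e1 : AdjoinRoot (toQ P) ≃ₐ[ℚ] AdjoinRoot (minpoly ℚ (y : AdjoinRoot (toQ f))) :=
    AdjoinRoot.algEquivOfEq ℚ _ _ hPQ
  let e2 : AdjoinRoot (minpoly ℚ (y : AdjoinRoot (toQ f))) ≃ₐ[ℚ]
      ℚ⟮(y : AdjoinRoot (toQ f))⟯ := adjoinRootEquivAdjoin ℚ hyint
  let e3 : ℚ⟮(y : AdjoinRoot (toQ f))⟯ ≃ₐ[ℚ] AdjoinRoot (toQ f) :=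
    (IntermediateField.equivOfEq hy).trans IntermediateField.topEquiv
  let e : AdjoinRoot (toQ P) ≃ₐ[ℚ] AdjoinRoot (toQ f) := (e1.trans e2).trans e3
  set t : AdjoinRoot (toQ P) := e.symm (AdjoinRoot.root (toQ f)) with ht
  have hminQ : minpoly ℚ t = toQ f := by
    rw [ht, minpoly.algEquiv_eq, minpolyQ_root f hmon]
  have hroot : aeval t f = 0 := by
    have h1 : aeval t (toQ f) = 0 := by
      rw [← hminQ, minpoly.aeval]
    have h2 : aeval t ((f.map (algebraMap ℤ ℚ))) = 0 := h1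
    rwa [aeval_map_algebraMap] at h2
  have htint : IsIntegral ℤ t := ⟨f, hmon, by rwa [aeval_def] at hroot⟩
  let x : 𝓞 (AdjoinRoot (toQ P)) := ⟨t, htint⟩
  have hxt : (x : AdjoinRoot (toQ P)) = t := rfl
  have hminZ : minpoly ℤ (x : AdjoinRoot (toQ P)) = f := by
    apply Polynomial.map_injective (Int.castRingHom ℚ) (Int.castRingHom ℚ).injective_int
    have h1 := minpoly.isIntegrallyClosed_eq_field_fractions' ℚ htint
    rw [hminQ] at h1
    exact h1.symm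
  refine ⟨hk, ⟨hirr⟩, x, ?_, hminZ⟩
  intro φ
  apply hR
  rw [hxt]
  have h4 : eval₂ (φ.comp (algebraMap ℤ (AdjoinRoot (toQ P)))) (φ t) f = 0 := by
    rw [← hom_eval₂, ← aeval_def, hroot, map_zero]
  have h5 : φ.comp (algebraMap ℤ (AdjoinRoot (toQ P))) = Int.castRingHom ℂ :=
    RingHom.ext_int _ _
  rwa [h5] at h4

/-- The number of irreducible polynomials with a given second coefficient. -/
theorem irt_card {k : ℕ} {E : ℝ} (hG : GenSet k E) : ∃ C : ℝ, 0 < C ∧ ∀ R N : ℝ,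
    1 ≤ R → 1 ≤ N → ∀ t : ℤ, {g | g ∈ Ir k R ∧ g.nextCoeff = t ∧ (dq (toQ g) : ℝ) ≤ N}.Finite ∧
      ({g | g ∈ Ir k R ∧ g.nextCoeff = t ∧ (dq (toQ g) : ℝ) ≤ N}.ncard : ℝ) ≤
        C * N ^ E * R ^ (k - 1) := by
  obtain ⟨C, hC, hG⟩ := hG
  refine ⟨C * 7 ^ k, by positivity, fun R N hR hN t => ?_⟩
  obtain ⟨S, hS1, hS2, hS3⟩ := hG N hN
  have hfib := fun P (hP : P ∈ S) => fib_card k R t hR P (hS1 P hP).1 (hS1 P hP).2
  have hfin : (⋃ P ∈ S, fib k R t P).Finite :=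
    (Finset.finite_toSet S).biUnion fun P hP => (hfib P hP).1
  have hsub : {g | g ∈ Ir k R ∧ g.nextCoeff = t ∧ (dq (toQ g) : ℝ) ≤ N} ⊆
      ⋃ P ∈ S, fib k R t P := by
    rintro g ⟨⟨h1, h2, h3, h4⟩, h5, h6⟩
    haveI : Fact (Irreducible (toQ g)) := ⟨h4⟩
    rw [dq_toQ] at h6
    obtain ⟨y, hy1, hy2⟩ := hS3 (AdjoinRoot (toQ g)) (by rw [finrank_adjoinRoot g h1, h2]) h6
    obtain ⟨_, h7⟩ := mem_fib' k R g h1 h2 h3 y hy1
    exact Set.mem_iUnion₂.mpr ⟨_, hy2, h2, h5, h7⟩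
  refine ⟨hfin.subset hsub, ?_⟩
  have h1 : ((⋃ P ∈ S, fib k R t P).ncard : ℝ) ≤ ∑ P ∈ S, ((fib k R t P).ncard : ℝ) := by
    exact_mod_cast Finset.set_ncard_biUnion_le S fun P => fib k R t P
  have h2 : ∑ P ∈ S, ((fib k R t P).ncard : ℝ) ≤ ∑ _P ∈ S, 7 ^ k * R ^ (k - 1) :=
    Finset.sum_le_sum fun P hP => (hfib P hP).2
  rw [Finset.sum_const, nsmul_eq_mul] at h2
  have h3 : ({g | g ∈ Ir k R ∧ g.nextCoeff = t ∧ (dq (toQ g) : ℝ) ≤ N}.ncard : ℝ) ≤
      ((⋃ P ∈ S, fib k R t P).ncard : ℝ) := by exact_mod_cast Set.ncard_le_ncard hsub hfin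
  calc _ ≤ (S.card : ℝ) * (7 ^ k * R ^ (k - 1)) := h3.trans (h1.trans h2)
    _ ≤ (C * N ^ E) * (7 ^ k * R ^ (k - 1)) := by gcongr
    _ = _ := by ring

/-- The number of irreducible polynomials. -/
theorem ir_card {k : ℕ} {E : ℝ} (hG : GenSet k E) : ∃ C : ℝ, 0 < C ∧ ∀ R N : ℝ,
    1 ≤ R → 1 ≤ N → {g | g ∈ Ir k R ∧ (dq (toQ g) : ℝ) ≤ N}.Finite ∧
      ({g | g ∈ Ir k R ∧ (dq (toQ g) : ℝ) ≤ N}.ncard : ℝ) ≤ C * N ^ E * R ^ k := by
  obtain ⟨C, hC, hG⟩ := hG
  refine ⟨C * 7 ^ k, by positivity, fun R N hR hN => ?_⟩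
  obtain ⟨S, hS1, hS2, hS3⟩ := hG N hN
  have hfib := fun P (hP : P ∈ S) => fib'_card k R hR P (hS1 P hP).1 (hS1 P hP).2
  have hfin : (⋃ P ∈ S, fib' k R P).Finite :=
    (Finset.finite_toSet S).biUnion fun P hP => (hfib P hP).1
  have hsub : {g | g ∈ Ir k R ∧ (dq (toQ g) : ℝ) ≤ N} ⊆ ⋃ P ∈ S, fib' k R P := by
    rintro g ⟨⟨h1, h2, h3, h4⟩, h6⟩
    haveI : Fact (Irreducible (toQ g)) := ⟨h4⟩
    rw [dq_toQ] at h6
    obtain ⟨y, hy1, hy2⟩ := hS3 (AdjoinRoot (toQ g)) (by rw [finrank_adjoinRoot g h1, h2]) h6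
    exact Set.mem_iUnion₂.mpr ⟨_, hy2, mem_fib' k R g h1 h2 h3 y hy1⟩
  refine ⟨hfin.subset hsub, ?_⟩
  have h1 : ((⋃ P ∈ S, fib' k R P).ncard : ℝ) ≤ ∑ P ∈ S, ((fib' k R P).ncard : ℝ) := by
    exact_mod_cast Finset.set_ncard_biUnion_le S fun P => fib' k R P
  have h2 : ∑ P ∈ S, ((fib' k R P).ncard : ℝ) ≤ ∑ _P ∈ S, 7 ^ k * R ^ k :=
    Finset.sum_le_sum fun P hP => (hfib P hP).2
  rw [Finset.sum_const, nsmul_eq_mul] at h2
  have h3 : ({g | g ∈ Ir k R ∧ (dq (toQ g) : ℝ) ≤ N}.ncard : ℝ) ≤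
      ((⋃ P ∈ S, fib' k R P).ncard : ℝ) := by exact_mod_cast Set.ncard_le_ncard hsub hfin
  calc _ ≤ (S.card : ℝ) * (7 ^ k * R ^ k) := h3.trans (h1.trans h2)
    _ ≤ (C * N ^ E) * (7 ^ k * R ^ k) := by gcongr
    _ = _ := by ring

end Pool.Agent.Helper65FreyD
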