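import Pool.Agent.Helper65_FreyD.Irr

/-!
# Monic polynomials with small roots whose algebra has a small discriminant
-/

namespace Pool.Agent.Helper65FreyD

open NumberField Module Polynomial Pool.Agent.Helper79FreyD

/-! ### a dyadic sum -/

theorem dyadic {α : Type*} (d : α → ℕ) (B E ε : ℝ) (hB : 0 ≤ B) (hε : 0 < ε)
    (s : Finset α) (hd : ∀ g ∈ s, 1 ≤ d g)
    (hc : ∀ N : ℝ, 1 ≤ N → ((s.filter (fun g => (d g : ℝ) ≤ N)).card : ℝ) ≤ B * N ^ E)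
    (hEε : 0 ≤ E + ε) :
    ∑ g ∈ s, (d g : ℝ) ^ (-(E + ε)) ≤ B * (2 ^ E / (1 - 2 ^ (-ε))) := by
  classical
  set L : ℕ := s.sup (fun g => Nat.log 2 (d g)) + 1 with hL
  have hmaps : ∀ g ∈ s, Nat.log 2 (d g) ∈ Finset.range L := by
    intro g hg
    rw [Finset.mem_range, hL, Nat.lt_succ_iff]
    exact Finset.le_sup (f := fun g => Nat.log 2 (d g)) hg
  rw [← Finset.sum_fiberwise_of_maps_to hmaps]
  have h2 : (2 : ℝ) ^ (-ε) < 1 := Real.rpow_lt_one_of_one_lt_of_neg (by norm_num) (by linarith)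
  have h20 : (0 : ℝ) < 2 ^ (-ε) := Real.rpow_pos_of_pos (by norm_num) _
  have hstep : ∀ j ∈ Finset.range L,
      ∑ g ∈ s.filter (fun g => Nat.log 2 (d g) = j), (d g : ℝ) ^ (-(E + ε)) ≤
        B * 2 ^ E * (2 ^ (-ε)) ^ j := by
    intro j _
    have h3 : ∀ g ∈ s.filter (fun g => Nat.log 2 (d g) = j), (d g : ℝ) ^ (-(E + ε)) ≤
        ((2 : ℝ) ^ j) ^ (-(E + ε)) := by
      intro g hg
      rw [Finset.mem_filter] at hg
      have h4 : 2 ^ j ≤ d g := by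
        rw [← hg.2]
        exact Nat.pow_log_le_self 2 (by have := hd g hg.1; omega)
      have h5 : (2 : ℝ) ^ j ≤ d g := by exact_mod_cast h4
      exact Real.rpow_le_rpow_of_nonpos (by positivity) h5 (by linarith)
    have h6 : ((s.filter (fun g => Nat.log 2 (d g) = j)).card : ℝ) ≤
        B * ((2 : ℝ) ^ (j + 1)) ^ E := by
      refine le_trans ?_ (hc ((2 : ℝ) ^ (j + 1)) (one_le_pow₀ (by norm_num)))
      have : s.filter (fun g => Nat.log 2 (d g) = j) ⊆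
          s.filter (fun g => (d g : ℝ) ≤ (2 : ℝ) ^ (j + 1)) := by
        intro g hg
        rw [Finset.mem_filter] at hg ⊢
        refine ⟨hg.1, ?_⟩
        have h7 : d g < 2 ^ (j + 1) := by
          rw [← hg.2]
          exact Nat.lt_pow_succ_log_self (by norm_num) _
        exact_mod_cast h7.le
      exact_mod_cast Finset.card_le_card this
    calc ∑ g ∈ s.filter (fun g => Nat.log 2 (d g) = j), (d g : ℝ) ^ (-(E + ε))
        ≤ ∑ _g ∈ s.filter (fun g => Nat.log 2 (d g) = j), ((2 : ℝ) ^ j) ^ (-(E + ε)) :=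
          Finset.sum_le_sum h3
      _ = ((s.filter (fun g => Nat.log 2 (d g) = j)).card : ℝ) *
          ((2 : ℝ) ^ j) ^ (-(E + ε)) := by rw [Finset.sum_const, nsmul_eq_mul]
      _ ≤ (B * ((2 : ℝ) ^ (j + 1)) ^ E) * ((2 : ℝ) ^ j) ^ (-(E + ε)) :=
          mul_le_mul_of_nonneg_right h6 (by positivity)
      _ = B * 2 ^ E * (2 ^ (-ε)) ^ j := by
          have e1 : ((2 : ℝ) ^ (j + 1)) ^ E = 2 ^ E * ((2 : ℝ) ^ j) ^ E := by
            rw [pow_succ', Real.mul_rpow (by norm_num) (by positivity)]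
          have e2 : ((2 : ℝ) ^ j) ^ (-(E + ε)) = (((2 : ℝ) ^ j) ^ E)⁻¹ * ((2 : ℝ) ^ (-ε)) ^ j := by
            rw [neg_add, Real.rpow_add (by positivity), Real.rpow_neg (by positivity)]
            congr 1
            rw [← Real.rpow_natCast, ← Real.rpow_natCast, ← Real.rpow_mul (by norm_num),
              ← Real.rpow_mul (by norm_num)]
            ring_nf
          rw [e1, e2]
          have h8 : ((2 : ℝ) ^ j) ^ E ≠ 0 := (Real.rpow_pos_of_pos (by positivity) _).ne'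
          field_simp
  refine (Finset.sum_le_sum hstep).trans ?_
  rw [← Finset.mul_sum, mul_div_assoc', mul_assoc]
  have h9 : ∑ i ∈ Finset.range L, ((2 : ℝ) ^ (-ε)) ^ i ≤ 1 / (1 - 2 ^ (-ε)) := by
    rw [geom_sum_eq h2.ne, ← neg_sub (1 : ℝ) (2 ^ (-ε)), div_neg, ← neg_div, neg_sub]
    have : (0 : ℝ) < 1 - 2 ^ (-ε) := by linarith
    gcongr
    linarith [pow_pos h20 L]
  have h10 : (0 : ℝ) ≤ 2 ^ E := (Real.rpow_pos_of_pos (by norm_num) _).le
  calc B * (2 ^ E * ∑ i ∈ Finset.range L, ((2 : ℝ) ^ (-ε)) ^ i)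
      ≤ B * (2 ^ E * (1 / (1 - 2 ^ (-ε)))) := by gcongr
    _ = B * 2 ^ E / (1 - 2 ^ (-ε)) := by ring

/-! ### the discriminant of the algebra -/

open Classical in
/-- The product of the absolute discriminants of the fields `ℚ[x] / (p)`, where `p` runs through
the irreducible factors of `q`. -/
noncomputable def prodDisc (q : ℚ[X]) : ℕ :=
  ((UniqueFactorizationMonoid.normalizedFactors q).map dq).prod

lemma one_le_prodDisc (q : ℚ[X]) : 1 ≤ prodDisc q := by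
  classical
  unfold prodDisc
  refine Nat.one_le_iff_ne_zero.mpr ?_
  intro h
  rw [Multiset.prod_eq_zero_iff, Multiset.mem_map] at h
  obtain ⟨p, _, hp⟩ := h
  have := one_le_dq p
  omega

lemma prodDisc_mul {q r : ℚ[X]} (hq : q ≠ 0) (hr : r ≠ 0) :
    prodDisc (q * r) = prodDisc q * prodDisc r := by
  classical
  unfold prodDisc
  rw [UniqueFactorizationMonoid.normalizedFactors_mul hq hr, Multiset.map_add, Multiset.prod_add]

lemma prodDisc_irr {q : ℚ[X]} (hq : q.Monic) (hirr : Irreducible q) : prodDisc q = dq q := by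
  classical
  unfold prodDisc
  rw [UniqueFactorizationMonoid.normalizedFactors_irreducible hirr, hq.normalize_eq_self,
    Multiset.map_singleton, Multiset.prod_singleton]

/-! ### factors -/

lemma exists_factor (f : ℤ[X]) (hf : f.Monic) (hd : 1 ≤ f.natDegree) :
    ∃ g h : ℤ[X], f = g * h ∧ g.Monic ∧ h.Monic ∧ 1 ≤ g.natDegree ∧ Irreducible (toQ g) := by
  have hnu : ¬ IsUnit f := by
    intro h
    have := natDegree_eq_zero_of_isUnit h
    omega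
  obtain ⟨i, hi, hif⟩ := WfDvdMonoid.exists_irreducible_factor hnu hf.ne_zero
  have hlc : IsUnit i.leadingCoeff := by
    obtain ⟨c, hc⟩ := hif
    have h1 := congrArg leadingCoeff hc
    rw [hf.leadingCoeff, leadingCoeff_mul] at h1
    exact IsUnit.of_mul_eq_one _ h1.symm
  obtain ⟨g, hg, hgi, hgm⟩ : ∃ g : ℤ[X], Irreducible g ∧ g ∣ f ∧ g.Monic := by
    rcases Int.isUnit_iff.mp hlc with h | h
    · exact ⟨i, hi, hif, h⟩
    · refine ⟨-i, ?_, ?_, ?_⟩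
      · exact (Associated.neg_left (Associated.refl i)).irreducible_iff.mpr hi
      · exact (neg_dvd).mpr hif
      · unfold Monic
        rw [leadingCoeff_neg, h]
        norm_num
  obtain ⟨h, hh⟩ := hgi
  refine ⟨g, h, hh, hgm, ?_, ?_, ?_⟩
  · exact hgm.of_mul_monic_left (by rw [← hh]; exact hf)
  · by_contra hcon
    have h0 : g.natDegree = 0 := by omega
    have h1 : g = 1 := hgm.natDegree_eq_zero.mp h0
    exact hg.not_isUnit (by rw [h1]; exact isUnit_one)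
  · have := (Polynomial.Monic.irreducible_iff_irreducible_map_fraction_map (K := ℚ) hgm).mp hg
    exact this

lemma RB.left {R : ℝ} {g h : ℤ[X]} (H : RB R (g * h)) : RB R g := by
  intro z hz
  exact H z (by rw [eval₂_mul, hz, zero_mul])

lemma RB.right {R : ℝ} {g h : ℤ[X]} (H : RB R (g * h)) : RB R h := by
  intro z hz
  exact H z (by rw [eval₂_mul, hz, mul_zero])

/-- The monic polynomials of degree `n` with small roots, given second coefficient and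
discriminant at most `N`. -/
def M (n : ℕ) (R : ℝ) (τ : ℤ) (N : ℝ) : Set ℤ[X] :=
  {f | f.Monic ∧ f.natDegree = n ∧ RB R f ∧ f.nextCoeff = τ ∧ (prodDisc (toQ f) : ℝ) ≤ N}

/-- The count. -/
def PP (n : ℕ) (F : ℝ) : Prop := ∃ C : ℝ, 0 < C ∧ ∀ R N : ℝ, 1 ≤ R → 1 ≤ N → ∀ τ : ℤ,
  (M n R τ N).Finite ∧ ((M n R τ N).ncard : ℝ) ≤ C * N ^ F * R ^ (n - 1)

/-- The count of the reducible polynomials. -/
def PR (n : ℕ) (F : ℝ) : Prop := ∃ C : ℝ, 0 < C ∧ ∀ R N : ℝ, 1 ≤ R → 1 ≤ N → ∀ τ : ℤ,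
  {f | f ∈ M n R τ N ∧ ¬ Irreducible (toQ f)}.Finite ∧
    ({f | f ∈ M n R τ N ∧ ¬ Irreducible (toQ f)}.ncard : ℝ) ≤ C * N ^ F * R ^ (n - 1)

theorem sum_dq {k : ℕ} {E : ℝ} (hG : GenSet k E) (hE : 0 ≤ E) {ε : ℝ} (hε : 0 < ε) :
    ∃ C : ℝ, 0 < C ∧ ∀ R : ℝ, 1 ≤ R → ∀ s : Finset ℤ[X], (∀ g ∈ s, g ∈ Ir k R) →
      ∑ g ∈ s, (dq (toQ g) : ℝ) ^ (-(E + ε)) ≤ C * R ^ k := by
  obtain ⟨C, hC, h⟩ := ir_card hG
  have h2 : (2 : ℝ) ^ (-ε) < 1 := Real.rpow_lt_one_of_one_lt_of_neg (by norm_num) (by linarith)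
  have h3 : (0 : ℝ) < 2 ^ E := Real.rpow_pos_of_pos (by norm_num) _
  have h4 : (0 : ℝ) < 1 - 2 ^ (-ε) := by linarith
  refine ⟨C * (2 ^ E / (1 - 2 ^ (-ε))), by positivity, fun R hR s hs => ?_⟩
  have h5 := dyadic (fun g : ℤ[X] => dq (toQ g)) (C * R ^ k) E ε (by positivity) hε s
    (fun g _ => one_le_dq _) (fun N hN => ?_) (by linarith)
  · refine h5.trans (le_of_eq ?_)
    ring
  · obtain ⟨hfin, hcard⟩ := h R N hR hN
    have h6 : ((s.filter (fun g => (dq (toQ g) : ℝ) ≤ N)).card : ℝ) ≤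
        ({g | g ∈ Ir k R ∧ (dq (toQ g) : ℝ) ≤ N}.ncard : ℝ) := by
      rw [← Set.ncard_coe_finset]
      have hsub : ((s.filter (fun g => (dq (toQ g) : ℝ) ≤ N) : Finset ℤ[X]) : Set ℤ[X]) ⊆
          {g | g ∈ Ir k R ∧ (dq (toQ g) : ℝ) ≤ N} := by
        intro g hg
        rw [Finset.mem_coe, Finset.mem_filter] at hg
        exact ⟨hs g hg.1, hg.2⟩
      exact_mod_cast Set.ncard_le_ncard hsub hfin
    refine h6.trans (hcard.trans (le_of_eq ?_))
    ring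

/-- The induction step. -/
theorem red_step (n : ℕ) (E ε : ℝ) (hE : 0 ≤ E) (hε : 0 < ε)
    (hG : ∀ k, 1 ≤ k → k < n → GenSet k E) (hP : ∀ k, 1 ≤ k → k < n → PP k (E + ε)) :
    PR n (E + ε) := by
  classical
  have hS : ∀ k, ∃ C : ℝ, 0 < C ∧ (1 ≤ k → k < n → ∀ R : ℝ, 1 ≤ R → ∀ s : Finset ℤ[X],
      (∀ g ∈ s, g ∈ Ir k R) → ∑ g ∈ s, (dq (toQ g) : ℝ) ^ (-(E + ε)) ≤ C * R ^ k) := by
    intro k
    by_cases hk : 1 ≤ k ∧ k < n
    · obtain ⟨C, hC, h⟩ := sum_dq (hG k hk.1 hk.2) hE hε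
      exact ⟨C, hC, fun _ _ => h⟩
    · exact ⟨1, one_pos, fun h1 h2 => absurd ⟨h1, h2⟩ hk⟩
  have hQ : ∀ k, ∃ C : ℝ, 0 < C ∧ (1 ≤ k → k < n → ∀ R N : ℝ, 1 ≤ R → 1 ≤ N → ∀ τ : ℤ,
      (M k R τ N).Finite ∧ ((M k R τ N).ncard : ℝ) ≤ C * N ^ (E + ε) * R ^ (k - 1)) := by
    intro k
    by_cases hk : 1 ≤ k ∧ k < n
    · obtain ⟨C, hC, h⟩ := hP k hk.1 hk.2
      exact ⟨C, hC, fun _ _ => h⟩
    · exact ⟨1, one_pos, fun h1 h2 => absurd ⟨h1, h2⟩ hk⟩
  choose CS hCS hS using hS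
  choose CQ hCQ hQ using hQ
  refine ⟨1 + ∑ k ∈ Finset.Ico 1 n, CS k * CQ (n - k), ?_, fun R N hR hN τ => ?_⟩
  · have : 0 ≤ ∑ k ∈ Finset.Ico 1 n, CS k * CQ (n - k) :=
      Finset.sum_nonneg fun k _ => (mul_pos (hCS k) (hCQ _)).le
    linarith
  -- the irreducible factors
  have hfinA : ∀ k, (1 ≤ k ∧ k < n) → {g | g ∈ Ir k R ∧ (dq (toQ g) : ℝ) ≤ N}.Finite := by
    intro k hk
    obtain ⟨C, _, h⟩ := ir_card (hG k hk.1 hk.2)
    exact (h R N hR hN).1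
  let A : ℕ → Finset ℤ[X] := fun k =>
    if hk : 1 ≤ k ∧ k < n then (hfinA k hk).toFinset else ∅
  have hA : ∀ k, (1 ≤ k ∧ k < n) → ∀ g, g ∈ A k ↔ g ∈ Ir k R ∧ (dq (toQ g) : ℝ) ≤ N := by
    intro k hk g
    show g ∈ (if hk : 1 ≤ k ∧ k < n then (hfinA k hk).toFinset else ∅) ↔ _
    rw [dif_pos hk, Set.Finite.mem_toFinset]
    rfl
  let U : ℕ → ℤ[X] → Set ℤ[X] := fun k g =>
    (fun h => g * h) '' M (n - k) R (τ - g.nextCoeff) (N / dq (toQ g))
  have hd1 : ∀ g : ℤ[X], (1 : ℝ) ≤ dq (toQ g) := fun g => by exact_mod_cast one_le_dq _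
  have hU : ∀ k, (1 ≤ k ∧ k < n) → ∀ g ∈ A k, (U k g).Finite ∧ ((U k g).ncard : ℝ) ≤
      CQ (n - k) * (N / dq (toQ g)) ^ (E + ε) * R ^ (n - k - 1) := by
    intro k hk g hg
    rw [hA k hk] at hg
    have h1 : 1 ≤ N / dq (toQ g) := by
      rw [le_div_iff₀ (by linarith [hd1 g]), one_mul]
      exact hg.2
    obtain ⟨h2, h3⟩ := hQ (n - k) (by omega) (by omega) R (N / dq (toQ g)) hR h1
      (τ - g.nextCoeff)
    refine ⟨h2.image _, le_trans ?_ h3⟩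
    exact_mod_cast Set.ncard_image_le h2
  have hsub : {f | f ∈ M n R τ N ∧ ¬ Irreducible (toQ f)} ⊆
      ({1} : Set ℤ[X]) ∪ ⋃ k ∈ Finset.Ico 1 n, ⋃ g ∈ A k, U k g := by
    rintro f ⟨⟨h1, h2, h3, h4, h5⟩, h6⟩
    by_cases hn0 : n = 0
    · left
      rw [Set.mem_singleton_iff]
      exact h1.natDegree_eq_zero.mp (h2.trans hn0)
    right
    obtain ⟨g, h, hgh, hg, hh, hgd, hgi⟩ := exists_factor f h1 (by omega)
    have hdeg : g.natDegree + h.natDegree = n := by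
      rw [← h2, hgh, hg.natDegree_mul hh]
    have hlt : g.natDegree < n := by
      by_contra hcon
      have h0 : h.natDegree = 0 := by omega
      have h1' : h = 1 := hh.natDegree_eq_zero.mp h0
      apply h6
      rw [hgh, h1', mul_one]
      exact hgi
    have hgQ : toQ g ≠ 0 := hgi.ne_zero
    have hhQ : toQ h ≠ 0 := (hh.map _).ne_zero
    have hpd : prodDisc (toQ f) = dq (toQ g) * prodDisc (toQ h) := by
      have e1 : toQ f = toQ g * toQ h := by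
        rw [hgh]
        exact Polynomial.map_mul _
      rw [e1, prodDisc_mul hgQ hhQ, prodDisc_irr (hg.map _) hgi]
    have hRB : RB R (g * h) := by rw [← hgh]; exact h3
    have hple : (dq (toQ g) : ℝ) * prodDisc (toQ h) ≤ N := by
      rw [hpd] at h5
      exact_mod_cast h5
    have hone : (1 : ℝ) ≤ prodDisc (toQ h) := by exact_mod_cast one_le_prodDisc _
    rw [Set.mem_iUnion₂]
    refine ⟨g.natDegree, Finset.mem_Ico.mpr ⟨hgd, hlt⟩, ?_⟩
    rw [Set.mem_iUnion₂]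
    refine ⟨g, ?_, h, ⟨hh, by omega, hRB.right, ?_, ?_⟩, hgh.symm⟩
    · rw [hA _ ⟨hgd, hlt⟩]
      refine ⟨⟨hg, rfl, hRB.left, hgi⟩, ?_⟩
      nlinarith [hd1 g]
    · rw [hgh, hg.nextCoeff_mul hh] at h4
      linarith
    · rw [le_div_iff₀ (by linarith [hd1 g])]
      linarith
  have hfinU : (⋃ k ∈ Finset.Ico 1 n, ⋃ g ∈ A k, U k g).Finite := by
    refine (Finset.finite_toSet _).biUnion fun k hk => ?_
    have hk' : 1 ≤ k ∧ k < n := Finset.mem_Ico.mp (Finset.mem_coe.mp hk)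
    exact (Finset.finite_toSet (A k)).biUnion fun g hg => (hU k hk' g hg).1
  have hfin2 : (({1} : Set ℤ[X]) ∪ ⋃ k ∈ Finset.Ico 1 n, ⋃ g ∈ A k, U k g).Finite :=
    (Set.finite_singleton _).union hfinU
  refine ⟨hfin2.subset hsub, ?_⟩
  have hN0 : 0 < N := by linarith
  have hk1 : ∀ k ∈ Finset.Ico 1 n, ((⋃ g ∈ A k, U k g).ncard : ℝ) ≤
      CS k * CQ (n - k) * (N ^ (E + ε) * R ^ (n - 1)) := by
    intro k hk
    have hk' : 1 ≤ k ∧ k < n := Finset.mem_Ico.mp hk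
    have h1 : ((⋃ g ∈ A k, U k g).ncard : ℝ) ≤ ∑ g ∈ A k, ((U k g).ncard : ℝ) := by
      exact_mod_cast Finset.set_ncard_biUnion_le (A k) fun g => U k g
    have h2 : ∑ g ∈ A k, ((U k g).ncard : ℝ) ≤ ∑ g ∈ A k,
        CQ (n - k) * N ^ (E + ε) * R ^ (n - k - 1) * (dq (toQ g) : ℝ) ^ (-(E + ε)) := by
      refine Finset.sum_le_sum fun g hg => (hU k hk' g hg).2.trans (le_of_eq ?_)
      rw [Real.div_rpow hN0.le (by linarith [hd1 g]), Real.rpow_neg (by linarith [hd1 g])]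
      ring
    rw [← Finset.mul_sum] at h2
    have h3 := hS k hk'.1 hk'.2 R hR (A k) (fun g hg => ((hA k hk' g).mp hg).1)
    have h4 : 0 ≤ CQ (n - k) * N ^ (E + ε) * R ^ (n - k - 1) := by
      have := hCQ (n - k)
      positivity
    refine h1.trans (h2.trans ((mul_le_mul_of_nonneg_left h3 h4).trans (le_of_eq ?_)))
    have h5 : R ^ (n - k - 1) * R ^ k = R ^ (n - 1) := by
      rw [← pow_add]
      congr 1
      omega
    calc CQ (n - k) * N ^ (E + ε) * R ^ (n - k - 1) * (CS k * R ^ k) =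
        CS k * CQ (n - k) * (N ^ (E + ε) * (R ^ (n - k - 1) * R ^ k)) := by ring
      _ = _ := by rw [h5]
  have h1 : ((({1} : Set ℤ[X]) ∪ ⋃ k ∈ Finset.Ico 1 n, ⋃ g ∈ A k, U k g).ncard : ℝ) ≤
      1 + ∑ k ∈ Finset.Ico 1 n, ((⋃ g ∈ A k, U k g).ncard : ℝ) := by
    have h2 := Set.ncard_union_le ({1} : Set ℤ[X]) (⋃ k ∈ Finset.Ico 1 n, ⋃ g ∈ A k, U k g)
    have h3 := Finset.set_ncard_biUnion_le (Finset.Ico 1 n) fun k => ⋃ g ∈ A k, U k g
    rw [Set.ncard_singleton] at h2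
    exact_mod_cast h2.trans (Nat.add_le_add_left h3 1)
  have h2 : ({f | f ∈ M n R τ N ∧ ¬ Irreducible (toQ f)}.ncard : ℝ) ≤
      ((({1} : Set ℤ[X]) ∪ ⋃ k ∈ Finset.Ico 1 n, ⋃ g ∈ A k, U k g).ncard : ℝ) := by
    exact_mod_cast Set.ncard_le_ncard hsub hfin2
  refine h2.trans (h1.trans ?_)
  have h3 := Finset.sum_le_sum hk1
  rw [← Finset.sum_mul] at h3
  have h4 : (1 : ℝ) ≤ N ^ (E + ε) * R ^ (n - 1) :=
    one_le_mul_of_one_le_of_one_le (Real.one_le_rpow hN (by linarith)) (one_le_pow₀ hR)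
  calc 1 + ∑ k ∈ Finset.Ico 1 n, ((⋃ g ∈ A k, U k g).ncard : ℝ)
      ≤ N ^ (E + ε) * R ^ (n - 1) + (∑ k ∈ Finset.Ico 1 n, CS k * CQ (n - k)) *
        (N ^ (E + ε) * R ^ (n - 1)) := add_le_add h4 h3
    _ = _ := by ring

theorem pp_all (n : ℕ) (E ε : ℝ) (hE : 0 ≤ E) (hε : 0 < ε)
    (hG : ∀ k, 1 ≤ k → k ≤ n → GenSet k E) (hn : 1 ≤ n) : PP n (E + ε) := by
  induction n using Nat.strong_induction_on with
  | _ n ih =>
    obtain ⟨C₁, hC₁, h1⟩ := red_step n E ε hE hε (fun k hk hkn => hG k hk hkn.le)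
      (fun k hk hkn => ih k hkn (fun j hj hjk => hG j hj (hjk.trans hkn.le)) hk)
    obtain ⟨C₂, hC₂, h2⟩ := irt_card (hG n hn le_rfl)
    refine ⟨C₁ + C₂, by positivity, fun R N hR hN τ => ?_⟩
    obtain ⟨f1, c1⟩ := h1 R N hR hN τ
    obtain ⟨f2, c2⟩ := h2 R N hR hN τ
    have hsub : M n R τ N ⊆ {f | f ∈ M n R τ N ∧ ¬ Irreducible (toQ f)} ∪
        {g | g ∈ Ir n R ∧ g.nextCoeff = τ ∧ (dq (toQ g) : ℝ) ≤ N} := by
      intro f hf
      by_cases hi : Irreducible (toQ f)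
      · right
        obtain ⟨h3, h4, h5, h6, h7⟩ := hf
        refine ⟨⟨h3, h4, h5, hi⟩, h6, ?_⟩
        rw [prodDisc_irr (h3.map _) hi] at h7
        exact h7
      · left
        exact ⟨hf, hi⟩
    refine ⟨(f1.union f2).subset hsub, ?_⟩
    have h3 : ((M n R τ N).ncard : ℝ) ≤
        ({f | f ∈ M n R τ N ∧ ¬ Irreducible (toQ f)}.ncard : ℝ) +
        ({g | g ∈ Ir n R ∧ g.nextCoeff = τ ∧ (dq (toQ g) : ℝ) ≤ N}.ncard : ℝ) := by
      exact_mod_cast (Set.ncard_le_ncard hsub (f1.union f2)).trans (Set.ncard_union_le _ _)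
    have h4 : N ^ E ≤ N ^ (E + ε) := Real.rpow_le_rpow_of_exponent_le hN (by linarith)
    calc ((M n R τ N).ncard : ℝ) ≤ C₁ * N ^ (E + ε) * R ^ (n - 1) +
        C₂ * N ^ E * R ^ (n - 1) := h3.trans (add_le_add c1 c2)
      _ ≤ C₁ * N ^ (E + ε) * R ^ (n - 1) + C₂ * N ^ (E + ε) * R ^ (n - 1) := by gcongr
      _ = (C₁ + C₂) * N ^ (E + ε) * R ^ (n - 1) := by ring

/-- The number of reducible polynomials. -/
theorem pr_all (n : ℕ) (E ε : ℝ) (hE : 0 ≤ E) (hε : 0 < ε)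
    (hG : ∀ k, 1 ≤ k → k < n → GenSet k E) : PR n (E + ε) :=
  red_step n E ε hE hε hG fun k hk hkn =>
    pp_all k E ε hE hε (fun j hj hjk => hG j hj (by omega)) hk

end Pool.Agent.Helper65FreyD
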